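import Pool.Agent.W783.Perc.Fin

set_option autoImplicit false

open MeasureTheory Set Filter
open scoped Topology

/-!
Finite-range perturbations of critical site percolation on `Z^(n+1)` with small jump.

Sites of `Z^(n+1) = Z x Z^n` are open with probability `a`, all nearest-neighbour bonds are open,
and bonds of length `2 ≤ k ≤ K` parallel to the first axis whose line has all its other coordinates
divisible by `m` are open with probability `1 - exp (-β k^(-s))`, all independently.  For every
`ε > 0`, once `β` is small and then `K` is large, the critical parameter of this finite-range model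
is within `ε` of that of site percolation on `Z^(n+1)`, and at its critical parameter the origin
percolates with probability at most `ε`.
-/

namespace Pool.Agent.Y990.Kept.FiniteRangeSmallJumpSite

open Pool.Agent.W783.PC

/-- Finite-range models arbitrarily close to site percolation on `Z^(n+1)` whose percolation
probability at criticality is arbitrarily small. -/
theorem result (n : ℕ) (hn : 1 ≤ n) (m : ℕ) (hm : 1 ≤ m) (s : ℝ) (hs : 1 < s) (hs2 : s < 2)
    (ε : ℝ) (hε : 0 < ε) :
    ∃ β0 : NNReal, 0 < β0 ∧ ∀ β : NNReal, 0 < β → β ≤ β0 → ∃ K0 : ℕ, ∀ K ≥ K0,
      |(acSK n m s β K : ℝ) - acZ n| ≤ ε ∧ thetaK n (acSK n m s β K) 1 β s m K ≤ ε :=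
  site_finite hn hm hs hs2 hε

end Pool.Agent.Y990.Kept.FiniteRangeSmallJumpSite
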